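import Mathlib

namespace Pool.Agent.Results.MP_a92470_an.Holds

open Matrix Function
open scoped ComplexOrder

/-- the block matrix with blocks `(1 - W i * (W j)ᴴ) κ i j` -/
def Pick {ι : Type*} {n : ℕ} (κ : Matrix ι ι ℂ) (W : ι → Matrix (Fin n) (Fin n) ℂ) :
    Matrix (ι × Fin n) (ι × Fin n) ℂ :=
  of fun p q => (1 - W p.1 * (W q.1)ᴴ) p.2 q.2 * κ p.1 q.1

/-- kernels with the complete Pick property -/
def CP {X : Type*} (s : Matrix X X ℂ) : Prop :=
  s.PosSemidef ∧ ∀ n : ℕ, 1 ≤ n → ∀ (N : ℕ) (x : Fin N → X), Injective x →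
    ∀ W : Fin N → Matrix (Fin n) (Fin n) ℂ, (Pick (s.submatrix x x) W).PosSemidef →
      ∃ Φ : X → Matrix (Fin n) (Fin n) ℂ, (Pick s Φ).PosSemidef ∧ ∀ i, Φ (x i) = W i

/-- `s` is a certificate for `k` -/
def Cert {X : Type*} (k s : Matrix X X ℂ) : Prop :=
  CP s ∧ ∃ h : Matrix X X ℂ, h.PosSemidef ∧ ∀ x y, k x y = (1 - h x y) * s x y

/-- every certificate for `k` is `s` times a kernel -/
def Least {X : Type*} (k s : Matrix X X ℂ) : Prop :=
  ∀ t, Cert k t → ∃ q : Matrix X X ℂ, q.PosSemidef ∧ ∀ x y, s x y ≠ 0 → t x y = q x y * s x y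

variable {X : Type*} {n : ℕ}

lemma dyad (a : X → ℂ) : (of fun x y => a x * star (a y)).PosSemidef := by
  refine ⟨by ext x y; simp [mul_comm], fun u => ?_⟩
  have := star_mul_self_nonneg (u.sum fun j uj => star (a j) * uj)
  convert this using 1
  simp only [Finsupp.sum, star_sum, Finset.sum_mul_sum, of_apply, star_mul, star_star]
  exact Finset.sum_congr rfl fun i _ => Finset.sum_congr rfl fun j _ => by ring

lemma two {M : Matrix X X ℂ} (hM : M.PosSemidef) (a b : X) :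
    0 ≤ (M a a).re ∧ (M a a).im = 0 ∧ M b a = star (M a b) ∧
      (M a b).re ^ 2 + (M a b).im ^ 2 ≤ (M a a).re * (M b b).re := by
  have h (c) : 0 ≤ (M c c).re ∧ (M c c).im = 0 := by
    simpa [Complex.le_def, eq_comm] using hM.diag_nonneg (i := c)
  have e : M b a = star (M a b) := (hM.1.apply b a).symm
  refine ⟨(h a).1, (h a).2, e, ?_⟩
  have := (hM.submatrix ![a, b]).det_nonneg
  simp [det_fin_two, Complex.le_def, e, (h a).2, (h b).2] at this
  nlinarith [this.1]

lemma row {M : Matrix X X ℂ} (hM : M.PosSemidef) {a : X} (h : M a a = 0) (b : X) :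
    M a b = 0 ∧ M b a = 0 := by
  obtain ⟨-, -, h1, h2⟩ := two hM a b
  have : M a b = 0 := by
    rw [h, Complex.zero_re, zero_mul] at h2
    apply Complex.ext <;> simp <;> nlinarith
  simp [h1, this]

lemma pick_const {k : Matrix X X ℂ} (hk : k.PosSemidef) {W : Matrix (Fin n) (Fin n) ℂ}
    (hW : (1 - W * Wᴴ).PosSemidef) : (Pick k fun _ => W).PosSemidef :=
  (hW.submatrix Prod.snd).hadamard (hk.submatrix Prod.fst)

lemma pick_zero {k : Matrix X X ℂ} (hk : k.PosSemidef) :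
    (Pick k fun _ => (0 : Matrix (Fin n) (Fin n) ℂ)).PosSemidef :=
  pick_const hk (by simpa using PosSemidef.one)

lemma cp_two {k : Matrix X X ℂ} (hk : k.PosSemidef) (a b : X) (hX : ∀ z, z = a ∨ z = b) : CP k := by
  classical
  refine ⟨hk, fun n _ N x hx W h => ?_⟩
  by_cases hs : Surjective x
  · choose π hπ using hs
    refine ⟨fun z => W (π z), ?_, fun i => congrArg W (hx (hπ (x i)))⟩
    refine (congrArg PosSemidef ?_).mp (h.submatrix (Prod.map π id))
    ext ⟨p, _⟩ ⟨q, _⟩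
    simp [Pick, hπ]
  rcases isEmpty_or_nonempty (Fin N) with _ | ⟨⟨i⟩⟩
  · exact ⟨_, pick_zero hk, isEmptyElim⟩
  have hi (j) : j = i := by
    by_contra hj
    refine hs fun z => ?_
    have := hx.ne hj
    rcases hX z with e | e <;> rcases hX (x i) with e1 | e1 <;> rcases hX (x j) with e2 | e2 <;>
      first | exact ⟨i, e1.trans e.symm⟩ | exact ⟨j, e2.trans e.symm⟩ | exact absurd (e2.trans e1.symm) this
  by_cases h0 : k (x i) (x i) = 0
  · refine ⟨fun z => if z = x i then W i else 0, ?_, fun j => by simp [hi j]⟩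
    refine (congrArg PosSemidef ?_).mp (pick_zero (n := n) hk)
    ext ⟨p, _⟩ ⟨q, _⟩
    by_cases hp : p = x i <;> by_cases hq : q = x i <;> simp [Pick, hp, hq, row hk h0]
  · refine ⟨_, pick_const hk (W := W i) ?_, fun j => by rw [hi j]⟩
    refine (congrArg PosSemidef ?_).mp ((h.submatrix fun a => (i, a)).smul (a := (k (x i) (x i))⁻¹)
      (inv_nonneg.2 hk.diag_nonneg))
    ext a b
    simp [Pick]
    field_simp

lemma cp_dyad {k s : Matrix X X ℂ} (hs : CP s) (δ : X → ℂ) (hδ : ∀ x y, s x y ≠ 0 → δ x = δ y)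
    (hk : ∀ x y, k x y = δ x * star (δ y) * s x y) : CP k := by
  classical
  refine ⟨?_, fun n hn N x hx W h => ?_⟩
  · refine (congrArg PosSemidef ?_).mp ((dyad δ).hadamard hs.1)
    ext x y
    simp [hk]
  obtain ⟨Φ, h1, h2⟩ := hs.2 n hn N x hx (fun i => if δ (x i) = 0 then 0 else W i) (by
    refine (congrArg PosSemidef ?_).mp
      (((dyad fun p : Fin N × Fin n => (δ (x p.1))⁻¹).hadamard h).add
      ((dyad fun p : Fin N × Fin n => if δ (x p.1) = 0 then 1 else 0).hadamard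
        (pick_zero (hs.1.submatrix x))))
    ext ⟨i, a⟩ ⟨j, b⟩
    by_cases e : s (x i) (x j) = 0
    · simp [Pick, hk, e]
    · have := hδ _ _ e
      by_cases e1 : δ (x j) = 0
      · simp [Pick, hk, this, e1]
      · have : star (δ (x j)) ≠ 0 := star_ne_zero.2 e1
        simp [Pick, *]
        simp only [Complex.star_def] at this
        field_simp)
  refine ⟨fun z => if h : δ z = 0 ∧ ∃ i, x i = z then W h.2.choose else Φ z, ?_, fun i => ?_⟩
  · refine (congrArg PosSemidef ?_).mp ((dyad fun p : X × Fin n => δ p.1).hadamard h1)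
    ext ⟨p, a⟩ ⟨q, b⟩
    by_cases hp : δ p = 0 <;> by_cases hq : δ q = 0 <;> simp [Pick, hk, hp, hq]
    ring
  · by_cases e : δ (x i) = 0
    · have : δ (x i) = 0 ∧ ∃ j, x j = x i := ⟨e, i, rfl⟩
      simp only [dif_pos this]
      rw [hx this.2.choose_spec]
    · simp [e, h2]

theorem result (X : Type*) (k s : Matrix X X ℂ) (hk : k.PosSemidef) (hs : Cert k s)
    (hmin : ∀ Y : Set X, Y.Nonempty →
      Least (k.submatrix ((↑) : Y → X) ((↑) : Y → X)) (s.submatrix ((↑) : Y → X) ((↑) : Y → X))) :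
    CP k ∧ ∃ δ : X → ℂ, ∀ x y, k x y = δ x * star (δ y) * s x y := by
  obtain ⟨hs, h, hh, e⟩ := hs
  have key (x y) (hxy : s x y ≠ 0) : (h x x).re ≤ 1 ∧ h x y = (h x x).re ∧ h x x = h y y := by
    obtain ⟨q, hq, e1⟩ := hmin {x, y} ⟨x, by simp⟩ _ ⟨cp_two (hk.submatrix (↑)) ⟨x, by simp⟩
      ⟨y, by simp⟩ (by rintro ⟨z, rfl | rfl⟩ <;> simp), 0, .zero, by simp⟩
    have e2 (a b : ({x, y} : Set X)) (hab : s a b ≠ 0) : q a b = 1 - h a b :=
      mul_right_cancel₀ hab ((e1 a b hab).symm.trans (e a b))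
    have q1 := e2 ⟨x, by simp⟩ ⟨x, by simp⟩ fun h0 => hxy (row hs.1 h0 y).1
    have q2 := e2 ⟨y, by simp⟩ ⟨y, by simp⟩ fun h0 => hxy (row hs.1 h0 x).2
    have q3 := e2 ⟨x, by simp⟩ ⟨y, by simp⟩ hxy
    obtain ⟨a1, -, -, a2⟩ := two hq ⟨x, by simp⟩ ⟨y, by simp⟩
    obtain ⟨a3, -, -, -⟩ := two hq ⟨y, by simp⟩ ⟨x, by simp⟩
    obtain ⟨b1, b2, -, b3⟩ := two hh x y
    obtain ⟨b4, b5, -, -⟩ := two hh y x
    simp only [q1, q2, q3, Complex.sub_re, Complex.sub_im, Complex.one_re, Complex.one_im] at a1 a2 a3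
    have c1 : 2 * (h x y).re ≤ (h x x).re + (h y y).re := by
      nlinarith [sq_nonneg ((h x x).re - (h y y).re), sq_nonneg (h x y).im]
    have c2 : (h x x).re + (h y y).re ≤ 2 * (h x y).re := by
      nlinarith [sq_nonneg ((h x x).re - (h y y).re), sq_nonneg (h x y).im]
    have c3 : (h x y).re = ((h x x).re + (h y y).re) / 2 := by linarith
    rw [c3] at b3
    have c4 : (h x x).re = (h y y).re := by nlinarith [sq_nonneg (h x y).im]
    have c5 : (h x y).im = 0 := by nlinarith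
    exact ⟨by linarith, Complex.ext (by simp; linarith) (by simpa), Complex.ext c4 (b2.trans b5.symm)⟩
  have hk (x y) : k x y = (√(1 - (h x x).re) : ℂ) * star (√(1 - (h y y).re) : ℂ) * s x y := by
    by_cases hxy : s x y = 0
    · simp [e, hxy]
    · obtain ⟨h1, h2, h3⟩ := key x y hxy
      rw [e, h2, ← h3, Complex.star_def, Complex.conj_ofReal, ← Complex.ofReal_mul,
        Real.mul_self_sqrt (by linarith)]
      simp
  exact ⟨cp_dyad hs _ (fun x y hxy => by rw [(key x y hxy).2.2]) hk, _, hk⟩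

end Pool.Agent.Results.MP_a92470_an.Holds
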